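import Pool.Agent.MP_3ce0a0_al.Q2C.Main
import Pool.Agent.MP_3ce0a0_al.Q2T12.KAB

namespace Pool.Agent.Results.MP_3ce0a0_al.CoveringType

open Pool.Agent.MP_3ce0a0_al.H79 in
/-- For `n ≥ 15`, `Out(F_n)` embeds in `Out(F_m)` exactly when `m = 1 + d (n - 1)` where `d` is
the index of a finite index subgroup of `Aut(F_n)` that maps onto `Out(F_n)`. -/
theorem result (n m : ℕ) (hn : 15 ≤ n) (hm : 1 ≤ m) :
    (∃ φ : Out (FreeGroup (Fin n)) →* Out (FreeGroup (Fin m)), Function.Injective φ) ↔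
      ∃ Γ : Subgroup (MulAut (FreeGroup (Fin n))), Γ ⊔ Inn (FreeGroup (Fin n)) = ⊤ ∧
        Γ.index ≠ 0 ∧ m = 1 + Γ.index * (n - 1) :=
  Pool.Agent.MP_3ce0a0_al.Q2C.char_of Pool.Agent.MP_3ce0a0_al.Q2T12.lemK26 hn hm

end Pool.Agent.Results.MP_3ce0a0_al.CoveringType
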