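import Pool.Agent.MP_3ce0a0_al.Q2.Final

namespace Pool.Agent.Results.MP_3ce0a0_al.Divisibility

open Pool.Agent.MP_3ce0a0_al.H79 in
/-- For `n ≥ 15` an embedding of `Out(F_n)` in `Out(F_m)` forces `n - 1` to divide `m - 1`. -/
theorem result (n m : ℕ) (hn : 15 ≤ n) (hm : 1 ≤ m)
    (φ : Out (FreeGroup (Fin n)) →* Out (FreeGroup (Fin m))) (hφ : Function.Injective φ) :
    n - 1 ∣ m - 1 :=
  have _ := hm
  Pool.Agent.MP_3ce0a0_al.Q2.main n m hn φ hφ

end Pool.Agent.Results.MP_3ce0a0_al.Divisibility
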