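import Pool.Agent.MP_3ce0a0_al.H79.XAll

namespace Pool.Agent.Results.MP_3ce0a0_al.LeastEven

open Pool.Agent.MP_3ce0a0_al.H79 in
/-- For every large even `n`, the least `m > n` such that `Out(F_n)` embeds in `Out(F_m)` is
`(n - 1) 2^n + 1`. -/
theorem result : ∃ n₀ : ℕ, ∀ n : ℕ, n₀ ≤ n → Even n →
    IsLeast {m : ℕ | n < m ∧ ∃ φ : Out (FreeGroup (Fin n)) →* Out (FreeGroup (Fin m)),
      Function.Injective φ} ((n - 1) * 2 ^ n + 1) :=
  X.leastEven

end Pool.Agent.Results.MP_3ce0a0_al.LeastEven
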