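import Pool.Agent.MP_3ce0a0_al.H15.T7

namespace Pool.Agent.Results.MP_3ce0a0_al.RankThree

open Pool.Agent.MP_3ce0a0_al in
/-- `Out(F_3)` embeds in `Out(F_m)` for `m = 7` and for every `m ≥ 10`. -/
theorem result (m : ℕ) (hm : m = 7 ∨ 10 ≤ m) :
    ∃ φ : H79.Out (FreeGroup (Fin 3)) →* H79.Out (FreeGroup (Fin m)), Function.Injective φ := by
  rcases hm with rfl | hm
  · exact H15.emb7
  · exact H15.emb10 m hm

end Pool.Agent.Results.MP_3ce0a0_al.RankThree
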